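import Mathlib

set_option autoImplicit false

/-!
Definitions for problem MP_df2971_lc: structures `(ℤ, +, X)` and `(ℤ, <, +, P)`, definability,
stability, recognizability by finite automata, and `V_k`.
-/

open FirstOrder

namespace Pool.Agent.Lib.MPdf2971

/-! ### The languages and structures -/

/-- Function symbols: one binary symbol for addition. -/
inductive AddFun : ℕ → Type
  | add : AddFun 2

/-- Relation symbols of the language of `(ℤ, +, X)`: one unary symbol. -/
inductive PredRel : ℕ → Type
  | mem : PredRel 1

/-- Relation symbols of the language of `(ℤ, <, +, P)`: a binary symbol and a unary symbol. -/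
inductive OrdPredRel : ℕ → Type
  | lt : OrdPredRel 2
  | mem : OrdPredRel 1

/-- The language of `(ℤ, +, X)`. -/
def LX : Language := ⟨AddFun, PredRel⟩

/-- The language of `(ℤ, <, +, P)`. -/
def LO : Language := ⟨AddFun, OrdPredRel⟩

/-- The structure `(ℤ, +, X)`. -/
@[reducible] def strX (X : Set ℤ) : LX.Structure ℤ where
  funMap := fun {_} f v => match f, v with
    | AddFun.add, v => v 0 + v 1
  RelMap := fun {_} r v => match r, v with
    | PredRel.mem, v => v 0 ∈ X

/-- The structure `(ℤ, <, +, P)`. -/
@[reducible] def strO (P : Set ℤ) : LO.Structure ℤ where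
  funMap := fun {_} f v => match f, v with
    | AddFun.add, v => v 0 + v 1
  RelMap := fun {_} r v => match r, v with
    | OrdPredRel.lt, v => v 0 < v 1
    | OrdPredRel.mem, v => v 0 ∈ P

/-- `S ⊆ ℤⁿ` is definable, with parameters, in `(ℤ, +, X)`. -/
def DefX (X : Set ℤ) {n : ℕ} (S : Set (Fin n → ℤ)) : Prop :=
  @Set.Definable ℤ Set.univ LX (strX X) (Fin n) S

/-- `S ⊆ ℤⁿ` is definable, with parameters, in `(ℤ, <, +, P)`. -/
def DefO (P : Set ℤ) {n : ℕ} (S : Set (Fin n → ℤ)) : Prop :=
  @Set.Definable ℤ Set.univ LO (strO P) (Fin n) S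

/-- A structure `M` has the order property if for some formula `φ(x, y)` there are, for every `N`,
tuples `a i`, `b i` (`i < N`) with `φ(a i, b j)` true exactly when `i < j`. -/
def OrderProperty (L : Language) (M : Type) [L.Structure M] : Prop :=
  ∃ (m n : ℕ) (φ : L.Formula (Fin m ⊕ Fin n)), ∀ N : ℕ,
    ∃ (a : Fin N → Fin m → M) (b : Fin N → Fin n → M),
      ∀ i j : Fin N, φ.Realize (Sum.elim (a i) (b j)) ↔ i < j

/-- `(ℤ, +, X)` is stable: no formula has the order property. -/
def StableX (X : Set ℤ) : Prop := ¬ @OrderProperty LX ℤ (strX X)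

/-- `(ℤ, +, X)` and `(ℤ, <, +, P)` define the same sets. -/
def SameDefinableSets (X P : Set ℤ) : Prop :=
  ∀ (n : ℕ) (S : Set (Fin n → ℤ)), DefX X S ↔ DefO P S

/-! ### Automata -/

/-- The base-`k` word of an integer over the alphabet `{-, 0, …, k-1}` (`none` is the sign `-`):
most significant digit first, with a leading `-` if the integer is negative.
The word of `0` is the one-letter word `0`. -/
def word (k : ℕ) (hk : 2 ≤ k) (n : ℤ) : List (Option (Fin k)) :=
  (if n < 0 then [none] else []) ++
    ((if n = 0 then [0] else Nat.digits k n.natAbs).reverse.map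
      fun d => some ⟨d % k, Nat.mod_lt _ (by omega)⟩)

/-- `X` is recognized by a finite automaton: the set of base-`k` words of elements of `X` is
accepted by a finite automaton. -/
def Recognized (k : ℕ) (hk : 2 ≤ k) (X : Set ℤ) : Prop :=
  Language.IsRegular ({w | ∃ n ∈ X, w = word k hk n} : _root_.Language (Option (Fin k)))

/-! ### The valuation -/

/-- `V_k(n)` is the largest power of `k` dividing `n ≠ 0`, and `V_k(0) = 1`. -/
noncomputable def V (k : ℕ) (n : ℤ) : ℤ :=
  if n = 0 then 1 else (k : ℤ) ^ multiplicity (k : ℤ) n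

/-- The set of nonzero integers `x` such that the exponent of the largest power of `k` dividing
`x` is even. -/
def evenVal (k : ℕ) : Set ℤ := {x | x ≠ 0 ∧ Even (multiplicity (k : ℤ) x)}

end Pool.Agent.Lib.MPdf2971
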