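import Mathlib
import Pool.Agent.Lib.MPdf2971.Defs

set_option autoImplicit false

/-!
Proofs for problem MP_df2971_lc: the set `evenVal k` is recognized by a finite automaton,
`(ℤ, +, evenVal k)` is unstable, and it defines neither the ordering, nor `k ^ ℕ`, nor `V_k`.
-/

open FirstOrder Filter

namespace Pool.Agent.Lib.MPdf2971

/-! ### The automorphism of an ultrapower -/

theorem mult_add_of_dvd {k : ℕ} {x y : ℤ} {N : ℕ} (hx : ¬ ((k:ℤ)^N ∣ x))
    (hy : (k:ℤ)^N ∣ y) : multiplicity (k:ℤ) (x + y) = multiplicity (k:ℤ) x := by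
  apply multiplicity_eq_of_emultiplicity_eq
  have : ∀ n : ℕ, (k:ℤ)^n ∣ (x + y) ↔ (k:ℤ)^n ∣ x := by
    intro n
    rcases le_total n N with h | h
    · have : (k:ℤ)^n ∣ y := (pow_dvd_pow _ h).trans hy
      exact (Int.dvd_add_left this)
    · constructor
      · intro h1
        exfalso
        apply hx
        have h2 : (k:ℤ)^N ∣ x + y := (pow_dvd_pow _ h).trans h1
        exact (Int.dvd_add_left hy).1 h2
      · intro h1
        exact absurd ((pow_dvd_pow _ h).trans h1) hx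
  rw [emultiplicity_eq_emultiplicity_iff]
  exact this

noncomputable abbrev UU : Ultrafilter ℕ := hyperfilter ℕ
abbrev PP : Type := (UU : Filter ℕ).Product (fun _ : ℕ => ℤ)

noncomputable instance instG : AddCommGroup PP := inferInstanceAs (AddCommGroup (Germ (UU : Filter ℕ) ℤ))

/-- the class of a sequence -/
noncomputable def cl (f : ℕ → ℤ) : PP := (Quotient.mk _ f : (UU : Filter ℕ).Product (fun _ : ℕ => ℤ))

theorem cl_surj (x : PP) : ∃ f, cl f = x := Quotient.exists_rep x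
theorem cl_add (f g : ℕ → ℤ) : cl (fun n => f n + g n) = cl f + cl g := rfl
theorem cl_zero : cl (fun _ => 0) = 0 := rfl
theorem cl_neg (f : ℕ → ℤ) : cl (fun n => - f n) = - cl f := rfl
theorem cl_sub (f g : ℕ → ℤ) : cl (fun n => f n - g n) = cl f - cl g := rfl
theorem cl_zsmul (m : ℤ) (f : ℕ → ℤ) : cl (fun n => m * f n) = m • cl f := rfl

theorem cl_eq (f g : ℕ → ℤ) : cl f = cl g ↔ ∀ᶠ n in (UU : Filter ℕ), f n = g n := Quotient.eq

theorem ev_ge (N : ℕ) : ∀ᶠ n in (UU : Filter ℕ), N ≤ n := by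
  have : ∀ᶠ n in (atTop : Filter ℕ), N ≤ n := eventually_ge_atTop N
  rw [← Nat.cofinite_eq_atTop] at this
  exact hyperfilter_le_cofinite this

/-- sequences divisible by `k^(2n)` -/
noncomputable def B (k : ℕ) : AddSubgroup PP where
  carrier := {x | ∃ f, cl f = x ∧ ∀ n, (k:ℤ)^(2*n) ∣ f n}
  zero_mem' := ⟨fun _ => 0, rfl, fun n => dvd_zero _⟩
  add_mem' := by
    rintro _ _ ⟨f, rfl, hf⟩ ⟨g, rfl, hg⟩
    exact ⟨fun n => f n + g n, rfl, fun n => dvd_add (hf n) (hg n)⟩
  neg_mem' := by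
    rintro _ ⟨f, rfl, hf⟩
    exact ⟨fun n => - f n, rfl, fun n => (dvd_neg).2 (hf n)⟩

theorem mem_B {k : ℕ} {f : ℕ → ℤ} : cl f ∈ B k ↔ ∀ᶠ n in (UU : Filter ℕ), (k:ℤ)^(2*n) ∣ f n := by
  constructor
  · rintro ⟨g, hg, h⟩
    rw [cl_eq] at hg
    filter_upwards [hg] with n hn
    rw [← hn]; exact h n
  · intro h
    classical
    refine ⟨fun n => if (k:ℤ)^(2*n) ∣ f n then f n else 0, ?_, fun n => ?_⟩
    · rw [cl_eq]
      filter_upwards [h] with n hn
      simp [hn]
    · by_cases h : (k:ℤ)^(2*n) ∣ f n <;> simp [h]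

theorem torsion_free {m : ℤ} (hm : m ≠ 0) {x : PP} (h : m • x = 0) : x = 0 := by
  obtain ⟨f, rfl⟩ := cl_surj x
  rw [← cl_zsmul, ← cl_zero, cl_eq] at h
  rw [← cl_zero, cl_eq]
  filter_upwards [h] with n hn
  rcases mul_eq_zero.1 hn with h | h
  · exact absurd h hm
  · exact h

theorem cancel {m : ℤ} (hm : m ≠ 0) {x y : PP} (h : m • x = m • y) : x = y := by
  have : m • (x - y) = 0 := by rw [zsmul_sub, h, sub_self]
  have := torsion_free hm this
  exact sub_eq_zero.1 this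

/-- the divisible part of `B` -/
noncomputable def D (k : ℕ) : AddSubgroup PP where
  carrier := {x | ∀ m : ℤ, m ≠ 0 → ∃ y ∈ B k, m • y = x}
  zero_mem' := fun m _ => ⟨0, (B k).zero_mem, smul_zero m⟩
  add_mem' := by
    intro a b ha hb m hm
    obtain ⟨y, hy, rfl⟩ := ha m hm
    obtain ⟨z, hz, hz'⟩ := hb m hm
    exact ⟨y + z, (B k).add_mem hy hz, by rw [smul_add, hz']⟩
  neg_mem' := by
    intro a ha m hm
    obtain ⟨y, hy, rfl⟩ := ha m hm
    exact ⟨-y, (B k).neg_mem hy, by rw [smul_neg]⟩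

theorem D_le_B (k : ℕ) : D k ≤ B k := by
  intro x hx
  obtain ⟨y, hy, h⟩ := hx 1 one_ne_zero
  rw [one_smul] at h
  rwa [← h]

noncomputable instance divD (k : ℕ) : DivisibleBy (D k) ℤ := by
  apply divisibleByOfSMulRightSurj
  intro m hm x
  obtain ⟨y, hy, h⟩ := x.2 m hm
  have : y ∈ D k := by
    intro m' hm'
    obtain ⟨z, hz, h'⟩ := x.2 (m * m') (mul_ne_zero hm hm')
    refine ⟨z, hz, ?_⟩
    apply cancel hm
    rw [h, ← h', mul_smul]
  exact ⟨⟨y, this⟩, Subtype.ext h⟩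

/-- the standard integers together with `B` -/
noncomputable def C (k : ℕ) : AddSubgroup PP := B k ⊔ AddSubgroup.zmultiples (cl fun _ => 1)

noncomputable def x0 (k : ℕ) : PP := cl fun n => (k:ℤ)^n
noncomputable def w0 (k : ℕ) : PP := cl fun n => - ((k:ℤ)^(2*n) * (n.factorial : ℤ))

theorem w0_mem (k : ℕ) : w0 k ∈ D k := by
  intro m hm
  classical
  refine ⟨cl fun n => -((k:ℤ)^(2*n) * ((n.factorial : ℤ) / m)), ?_, ?_⟩
  · rw [mem_B]
    exact Eventually.of_forall fun n => (dvd_neg).2 (Dvd.intro _ rfl)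
  · rw [← cl_zsmul, w0, cl_eq]
    filter_upwards [ev_ge m.natAbs] with n hn
    have : m ∣ (n.factorial : ℤ) := by
      rw [← Int.natAbs_dvd]
      exact_mod_cast Nat.dvd_factorial (Int.natAbs_pos.2 hm) hn
    obtain ⟨c, hc⟩ := this
    rw [hc, Int.mul_ediv_cancel_left _ hm]
    ring

theorem x0_inf {k : ℕ} (hk : 2 ≤ k) {m : ℤ} (h : m • x0 k ∈ C k) : m = 0 := by
  rw [C, AddSubgroup.mem_sup] at h
  obtain ⟨b, hb, c, hc, h⟩ := h
  obtain ⟨f, rfl⟩ := cl_surj b
  rw [AddSubgroup.mem_zmultiples_iff] at hc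
  obtain ⟨c', rfl⟩ := hc
  rw [mem_B] at hb
  rw [← cl_zsmul, ← cl_add, x0, ← cl_zsmul, cl_eq] at h
  have hk1 : ∀ n : ℕ, (n:ℤ) < (k:ℤ)^n := fun n => by exact_mod_cast Nat.lt_pow_self (by omega)
  have hpos : ∀ n : ℕ, 0 < (k:ℤ)^n := fun n => by positivity
  obtain ⟨n, hn, h1, hcn⟩ := (hb.and (h.and (ev_ge (c'.natAbs + m.natAbs)))).exists
  have h2 : (k:ℤ)^n ∣ f n := (pow_dvd_pow _ (by omega)).trans hn
  have h3 : (k:ℤ)^n ∣ c' := by
    have : c' = m * (k:ℤ)^n - f n := by linarith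
    rw [this]
    exact dvd_sub (Dvd.intro_left _ rfl) h2
  have h4 : c' = 0 := by
    apply Int.eq_zero_of_abs_lt_dvd h3
    have := hk1 n
    have h5 : |c'| ≤ n := by
      rw [Int.abs_eq_natAbs]; exact_mod_cast (by omega)
    linarith
  rw [h4] at h1
  have h6 : (k:ℤ)^n * (k:ℤ)^n ∣ m * (k:ℤ)^n := by
    have : f n = m * (k:ℤ)^n := by linarith
    rw [← this, ← pow_add, ← two_mul]; exact hn
  have h7 : (k:ℤ)^n ∣ m := (Int.mul_dvd_mul_iff_right (hpos n).ne').1 h6
  apply Int.eq_zero_of_abs_lt_dvd h7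
  have h5 : |m| ≤ n := by
    rw [Int.abs_eq_natAbs]; exact_mod_cast (by omega)
  have := hk1 n
  linarith

theorem exists_tau {k : ℕ} (hk : 2 ≤ k) : ∃ τ : PP →+ PP,
    (∀ x, τ x ∈ D k) ∧ (∀ x ∈ B k, τ x = 0) ∧ τ (cl fun _ => 1) = 0 ∧ τ (x0 k) = w0 k := by
  let A := PP ⧸ C k
  let q : PP →+ A := QuotientAddGroup.mk' (C k)
  let f : ℤ →+ A := (zmultiplesHom A) (q (x0 k))
  have hf : Function.Injective f := by
    rw [injective_iff_map_eq_zero]
    intro m hm
    have : q (m • x0 k) = 0 := by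
      rw [map_zsmul]; exact hm
    have h2 : m • x0 k ∈ C k := (QuotientAddGroup.eq_zero_iff _).1 this
    exact x0_inf hk h2
  let g : ℤ →+ D k := (zmultiplesHom (D k)) ⟨w0 k, w0_mem k⟩
  obtain ⟨h, hh⟩ := (Module.Baer.of_divisible (D k)).extension_property_addMonoidHom f hf g
  refine ⟨(D k).subtype.comp (h.comp q), ?_, ?_, ?_, ?_⟩
  · intro x
    exact (h (q x)).2
  · intro x hx
    have : q x = 0 := (QuotientAddGroup.eq_zero_iff _).2 (AddSubgroup.mem_sup_left hx)
    simp [this]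
  · have : q (cl fun _ => 1) = 0 := (QuotientAddGroup.eq_zero_iff _).2
      (AddSubgroup.mem_sup_right (AddSubgroup.mem_zmultiples _))
    simp [this]
  · have h1 : h (f 1) = g 1 := by rw [← hh]; rfl
    have h2 : f 1 = q (x0 k) := by simp [f]
    have h3 : g 1 = ⟨w0 k, w0_mem k⟩ := by simp [g]
    rw [h2, h3] at h1
    simp [h1]

/-- `1 + τ` preserves the set `evenVal` in the ultrapower -/
theorem mem_iff {k : ℕ} {τ : PP →+ PP} (h1 : ∀ x, τ x ∈ D k)
    (h2 : ∀ x ∈ B k, τ x = 0) (f g : ℕ → ℤ) (h : τ (cl f) = cl g) :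
    (∀ᶠ n in (UU : Filter ℕ), f n + g n ∈ evenVal k) ↔ ∀ᶠ n in (UU : Filter ℕ), f n ∈ evenVal k := by
  by_cases hB : cl f ∈ B k
  · have h3 := h2 _ hB
    rw [h, ← cl_zero, cl_eq] at h3
    apply eventually_congr
    filter_upwards [h3] with n hn
    rw [hn, add_zero]
  · rw [mem_B, ← Ultrafilter.eventually_not] at hB
    have h3 : cl g ∈ B k := by rw [← h]; exact D_le_B k (h1 _)
    rw [mem_B] at h3
    apply eventually_congr
    filter_upwards [hB, h3] with n hn1 hn2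
    have h4 := mult_add_of_dvd hn1 hn2
    have h5 : f n ≠ 0 := by
      intro h5; apply hn1; rw [h5]; exact dvd_zero _
    have h6 : f n + g n ≠ 0 := by
      intro h6; apply hn1
      have : f n = - g n := by linarith
      rw [this]; exact (dvd_neg).2 hn2
    show (f n + g n ≠ 0 ∧ Even (multiplicity (k : ℤ) (f n + g n))) ↔
      (f n ≠ 0 ∧ Even (multiplicity (k : ℤ) (f n)))
    rw [h4]
    exact ⟨fun h => ⟨h5, h.2⟩, fun h => ⟨h6, h.2⟩⟩

theorem exists_auto {k : ℕ} (hk : 2 ≤ k) :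
    letI : ∀ _ : ℕ, LX.Structure ℤ := fun _ => strX (evenVal k)
    ∃ σ : PP ≃[LX] PP, (∀ m : ℤ, σ (cl fun _ => m) = cl fun _ => m) ∧
      σ (x0 k) = x0 k + w0 k := by
  letI : ∀ _ : ℕ, LX.Structure ℤ := fun _ => strX (evenVal k)
  obtain ⟨τ, h1, h2, h3, h4⟩ := exists_tau hk
  have h5 : ∀ x, τ (τ x) = 0 := fun x => h2 _ (D_le_B k (h1 x))
  refine ⟨⟨⟨fun x => x + τ x, fun x => x - τ x, fun x => ?_, fun x => ?_⟩, ?_, ?_⟩, ?_, ?_⟩
  · show (x + τ x) - τ (x + τ x) = x
    rw [map_add, h5]; abel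
  · show (x - τ x) + τ (x - τ x) = x
    rw [map_sub, h5]; abel
  · intro n f v
    have key : ∀ v : Fin 2 → PP, Language.Structure.funMap (L := LX) (M := PP) AddFun.add v =
        v 0 + v 1 := by
      intro v
      choose x hx using fun i => cl_surj (v i)
      have hv : v = fun i => cl (x i) := funext fun i => (hx i).symm
      rw [hv]
      rfl
    cases f
    show Language.Structure.funMap (L := LX) (M := PP) AddFun.add v +
      τ (Language.Structure.funMap (L := LX) (M := PP) AddFun.add v) =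
      Language.Structure.funMap (L := LX) (M := PP) AddFun.add (fun i => v i + τ (v i))
    rw [key, key, map_add]
    abel
  · intro n r v
    have key : ∀ v : Fin 1 → ℕ → ℤ, Language.Structure.RelMap (L := LX) (M := PP) PredRel.mem
        (fun i => cl (v i)) ↔ ∀ᶠ n in (UU : Filter ℕ), v 0 n ∈ evenVal k := by
      intro v
      exact Language.relMap_quotient_mk' (s := (UU : Filter ℕ).productSetoid (fun _ : ℕ => ℤ))
        (L := LX) (M := ℕ → ℤ) PredRel.mem v
    cases r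
    choose x hx using fun i => cl_surj (v i)
    have hv : v = fun i => cl (x i) := funext fun i => (hx i).symm
    obtain ⟨g, hg⟩ := cl_surj (τ (cl (x 0)))
    have h6 := mem_iff h1 h2 (x 0) g hg.symm
    show Language.Structure.RelMap (L := LX) (M := PP) PredRel.mem (fun i => v i + τ (v i)) ↔
      Language.Structure.RelMap (L := LX) (M := PP) PredRel.mem v
    rw [hv, key, ← h6]
    have h7 : (fun i : Fin 1 => cl (x i) + τ (cl (x i))) = fun i => cl (fun n => x 0 n + g n) := by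
      funext i
      rw [Subsingleton.elim i 0, ← hg, cl_add]
    rw [h7]
    exact key (fun _ n => x 0 n + g n)
  · intro m
    show (cl fun _ => m) + τ (cl fun _ => m) = cl fun _ => m
    have : (cl fun _ => m) = m • (cl fun _ => (1:ℤ)) := by
      rw [← cl_zsmul]; simp
    rw [this, map_zsmul, h3, smul_zero, add_zero]
  · show x0 k + τ (x0 k) = x0 k + w0 k
    rw [h4]

theorem key {k : ℕ} (hk : 2 ≤ k) {n : ℕ} {S : Set (Fin n → ℤ)} (hS : DefX (evenVal k) S)
    (f g : Fin n → ℕ → ℤ)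
    (hfg : ∀ i, (∃ m : ℤ, f i = (fun _ => m) ∧ g i = (fun _ => m)) ∨
      (f i = (fun j => (k:ℤ)^j) ∧ g i = fun j => (k:ℤ)^j - (k:ℤ)^(2*j) * (j.factorial : ℤ))) :
    (∀ᶠ j in (UU : Filter ℕ), (fun i => f i j) ∈ S) ↔
      ∀ᶠ j in (UU : Filter ℕ), (fun i => g i j) ∈ S := by
  letI : ∀ _ : ℕ, LX.Structure ℤ := fun _ => strX (evenVal k)
  letI : LX.Structure ℤ := strX (evenVal k)
  obtain ⟨σ, h1, h2⟩ := exists_auto hk
  have h3 : ∀ i, σ (cl (f i)) = cl (g i) := by
    intro i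
    rcases hfg i with ⟨m, hf, hg⟩ | ⟨hf, hg⟩
    · rw [hf, hg]; exact h1 m
    · rw [hf, hg]; exact h2
  obtain ⟨φ, hφ⟩ := Set.definable_iff_exists_formula_sum.1 hS
  have h4 : ∀ v : Fin n → ℕ → ℤ, (∀ᶠ j in (UU : Filter ℕ), (fun i => v i j) ∈ S) ↔
      Language.Formula.Realize (L := LX) (M := PP) φ
        (Sum.elim (fun a => cl fun _ => (a : ℤ)) fun i => cl (v i)) := by
    intro v
    have h5 := Language.Ultraproduct.realize_formula_cast (L := LX) (u := UU)
      (M := fun _ : ℕ => ℤ) φ (Sum.elim (fun a _ => (a : ℤ)) v)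
    have h6 : (fun i => ((Sum.elim (fun (a : (Set.univ : Set ℤ)) (_ : ℕ) => (a : ℤ)) v i : ℕ → ℤ) :
        (UU : Filter ℕ).Product (fun _ : ℕ => ℤ))) =
        Sum.elim (fun a : (Set.univ : Set ℤ) => cl fun _ => (a : ℤ)) fun i => cl (v i) := by
      funext i
      rcases i with a | i <;> rfl
    rw [h6] at h5
    refine Iff.trans ?_ h5.symm
    apply eventually_congr
    apply Eventually.of_forall
    intro j
    rw [hφ]
    have h7 : (fun i => Sum.elim (fun (a : (Set.univ : Set ℤ)) (_ : ℕ) => (a : ℤ)) v i j) =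
        Sum.elim (fun a : (Set.univ : Set ℤ) => (a : ℤ)) fun i => v i j := by
      funext i
      rcases i with a | i <;> rfl
    rw [h7]
    rfl
  rw [h4, h4, ← Language.StrongHomClass.realize_formula σ]
  have h8 : (⇑σ ∘ Sum.elim (fun (a : (Set.univ : Set ℤ)) => cl fun _ => (a : ℤ)) fun i => cl (f i))
      = Sum.elim (fun a : (Set.univ : Set ℤ) => cl fun _ => (a : ℤ)) fun i => cl (g i) := by
    funext i
    rcases i with a | i
    · exact h1 a
    · exact h3 i
  rw [h8]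

/-! ### The finite automaton -/

theorem finMult {k : ℕ} (hk : 2 ≤ k) {x : ℤ} (hx : x ≠ 0) : FiniteMultiplicity (k:ℤ) x := by
  rw [Int.finiteMultiplicity_iff]
  exact ⟨by simp; omega, hx⟩

theorem mult_eq {k : ℕ} (hk : 2 ≤ k) {x : ℤ} (hx : x ≠ 0) {n : ℕ} (h1 : (k:ℤ)^n ∣ x)
    (h2 : ¬ (k:ℤ)^(n+1) ∣ x) : multiplicity (k:ℤ) x = n :=
  ((finMult hk hx).multiplicity_eq_iff).2 ⟨h1, h2⟩

theorem mult_zero {k : ℕ} (hk : 2 ≤ k) (m d : ℕ) (hd : 0 < d) (hd' : d < k) :
    multiplicity (k:ℤ) ((k * m + d : ℕ) : ℤ) = 0 := by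
  apply mult_eq hk
  · exact_mod_cast (by omega)
  · simp
  · rw [zero_add, pow_one]
    intro h
    have h1 : k ∣ k * m + d := by exact_mod_cast h
    have h2 : k ∣ d := (Nat.dvd_add_right (Dvd.intro m rfl)).1 h1
    have := Nat.le_of_dvd hd h2
    omega

theorem mult_succ {k : ℕ} (hk : 2 ≤ k) (m : ℕ) (hm : 0 < m) :
    multiplicity (k:ℤ) ((k * m : ℕ) : ℤ) = multiplicity (k:ℤ) (m:ℤ) + 1 := by
  have hk0 : (k:ℤ) ≠ 0 := by exact_mod_cast (by omega)
  apply mult_eq hk
  · have : 0 < k * m := Nat.mul_pos (by omega) hm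
    exact_mod_cast this.ne'
  · rw [pow_succ', Nat.cast_mul]
    exact mul_dvd_mul_left _ (pow_multiplicity_dvd _ _)
  · rw [pow_succ', Nat.cast_mul]
    intro h
    have := (Int.mul_dvd_mul_iff_left hk0).1 h
    have h3 := ((finMult hk (x := (m:ℤ)) (by exact_mod_cast hm.ne')).multiplicity_eq_iff (n := multiplicity (k:ℤ) (m:ℤ))).1 rfl
    exact h3.2 this

def wordN (k : ℕ) (hk : 2 ≤ k) (s : Bool) (m : ℕ) : List (Option (Fin k)) :=
  (if s then [none] else []) ++
    ((Nat.digits k m).reverse.map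
      fun d => some ⟨d % k, Nat.mod_lt _ (by omega)⟩)

theorem wordN_step {k : ℕ} (hk : 2 ≤ k) (s : Bool) (m : ℕ) (hm : 0 < m) (d : Fin k) :
    wordN k hk s (k * m + d) = wordN k hk s m ++ [some d] := by
  have h : Nat.digits k (k * m + d) = (d:ℕ) :: Nat.digits k m := by
    have := Nat.digits_add k (by omega) (d:ℕ) m d.2 (Or.inr hm.ne')
    rw [add_comm]; exact this
  simp only [wordN, h, List.reverse_cons, List.map_append, List.append_assoc]
  simp [Nat.mod_eq_of_lt d.2]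

theorem wordN_base {k : ℕ} (hk : 2 ≤ k) (s : Bool) (d : Fin k) (hd : 0 < (d:ℕ)) :
    wordN k hk s d = (if s then [none] else []) ++ [some d] := by
  have h : Nat.digits k d = [(d:ℕ)] := Nat.digits_of_lt _ _ hd.ne' d.2
  simp only [wordN, h]
  simp [Nat.mod_eq_of_lt d.2]

theorem word_eq {k : ℕ} (hk : 2 ≤ k) (n : ℤ) (hn : n ≠ 0) :
    word k hk n = wordN k hk (decide (n < 0)) n.natAbs := by
  simp [word, wordN, hn]

inductive St | start | minus | even | odd | dead
  deriving DecidableEq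

instance : Fintype St :=
  ⟨{St.start, St.minus, St.even, St.odd, St.dead}, by intro x; cases x <;> simp⟩

open St in
def step (k : ℕ) : St → Option (Fin k) → St
  | start, none => minus
  | start, some d => if (d : ℕ) = 0 then dead else even
  | minus, none => dead
  | minus, some d => if (d : ℕ) = 0 then dead else even
  | even, none => dead
  | even, some d => if (d : ℕ) = 0 then odd else even
  | odd, none => dead
  | odd, some _ => even
  | dead, _ => dead

def auto (k : ℕ) : DFA (Option (Fin k)) St := ⟨step k, St.start, {St.even}⟩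

/-- value of the state -/
noncomputable def stOf (k : ℕ) (m : ℕ) : St :=
  open Classical in if Even (multiplicity (k:ℤ) (m:ℤ)) then St.even else St.odd

theorem step_stOf {k : ℕ} (hk : 2 ≤ k) (m : ℕ) (hm : 0 < m) (d : Fin k) :
    step k (stOf k m) (some d) = stOf k (k * m + d) := by
  by_cases hd : (d:ℕ) = 0
  · rw [hd, add_zero]
    unfold stOf
    rw [mult_succ hk m hm]
    by_cases h : Even (multiplicity (k:ℤ) (m:ℤ))
    · have : ¬ Even (multiplicity (k:ℤ) (m:ℤ) + 1) := by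
        rw [Nat.even_add_one]; exact not_not.2 h
      rw [if_pos h, if_neg this]; simp [step, hd]
    · have : Even (multiplicity (k:ℤ) (m:ℤ) + 1) := by
        rw [Nat.even_add_one]; exact h
      rw [if_neg h, if_pos this]; simp [step]
  · have : stOf k (k * m + d) = St.even := by
      unfold stOf
      rw [mult_zero hk m d (Nat.pos_of_ne_zero hd) d.2]
      simp
    rw [this]
    unfold stOf
    split_ifs <;> simp [step, hd]

theorem stOf_base {k : ℕ} (hk : 2 ≤ k) (d : Fin k) (hd : (d:ℕ) ≠ 0) : stOf k d = St.even := by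
  have := mult_zero hk 0 d (Nat.pos_of_ne_zero hd) d.2
  rw [mul_zero, zero_add] at this
  unfold stOf
  rw [this]; simp

theorem eval_wordN {k : ℕ} (hk : 2 ≤ k) (s : Bool) (m : ℕ) (hm : 0 < m) :
    (auto k).eval (wordN k hk s m) = stOf k m := by
  induction m using Nat.strong_induction_on with
  | _ m ih =>
    have hmod : m % k < k := Nat.mod_lt _ (by omega)
    have hdm : k * (m / k) + (m % k) = m := Nat.div_add_mod m k
    rcases Nat.eq_zero_or_pos (m / k) with h | h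
    · rw [h, mul_zero, zero_add] at hdm
      have hmk : m < k := by omega
      have h1 := wordN_base hk s ⟨m, hmk⟩ hm
      have h2 := stOf_base hk ⟨m, hmk⟩ hm.ne'
      simp only at h1 h2
      rw [h1, h2]
      cases s <;> simp [auto, DFA.eval, DFA.evalFrom, step, hm.ne']
    · have h1 := wordN_step hk s (m / k) h ⟨m % k, hmod⟩
      simp only [hdm] at h1
      rw [h1, DFA.eval, DFA.evalFrom_append_singleton, ← DFA.eval,
        ih (m / k) (Nat.div_lt_self hm (by omega)) h]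
      have h2 := step_stOf hk (m / k) h ⟨m % k, hmod⟩
      simp only [hdm] at h2
      exact h2

theorem eval_cases {k : ℕ} (hk : 2 ≤ k) (w : List (Option (Fin k))) :
    ((auto k).eval w = St.start ∧ w = []) ∨ ((auto k).eval w = St.minus ∧ w = [none]) ∨
    (∃ s m, 0 < m ∧ w = wordN k hk s m) ∨ (auto k).eval w = St.dead := by
  induction w using List.reverseRecOn with
  | nil => left; exact ⟨rfl, rfl⟩
  | append_singleton w a ih =>
    rw [DFA.eval, DFA.evalFrom_append_singleton, ← DFA.eval]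
    have hstep : ∀ s a, (auto k).step s a = step k s a := fun _ _ => rfl
    simp only [hstep]
    rcases ih with ⟨h1, rfl⟩ | ⟨h1, rfl⟩ | ⟨s, m, hm, rfl⟩ | h1
    · rw [h1]
      rcases a with _ | d
      · right; left; exact ⟨rfl, rfl⟩
      · by_cases hd : (d:ℕ) = 0
        · right; right; right; simp [step, hd]
        · right; right; left
          exact ⟨false, d, Nat.pos_of_ne_zero hd, by
            rw [wordN_base hk false d (Nat.pos_of_ne_zero hd)]; simp⟩
    · rw [h1]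
      rcases a with _ | d
      · right; right; right; rfl
      · by_cases hd : (d:ℕ) = 0
        · right; right; right; simp [step, hd]
        · right; right; left
          exact ⟨true, d, Nat.pos_of_ne_zero hd, by
            rw [wordN_base hk true d (Nat.pos_of_ne_zero hd)]; simp⟩
    · rcases a with _ | d
      · right; right; right
        rw [eval_wordN hk s m hm]
        unfold stOf; split_ifs <;> rfl
      · right; right; left
        exact ⟨s, k * m + d, by positivity, (wordN_step hk s m hm d).symm⟩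
    · rw [h1]; right; right; right; rfl

theorem recognized_evenVal (k : ℕ) (hk : 2 ≤ k) : Recognized k hk (evenVal k) := by
  refine ⟨St, inferInstance, auto k, ?_⟩
  ext w
  rw [DFA.mem_accepts]
  constructor
  · intro h
    have h : (auto k).eval w = St.even := h
    rcases eval_cases hk w with ⟨h1, _⟩ | ⟨h1, _⟩ | ⟨s, m, hm, rfl⟩ | h1
    · rw [h1] at h; cases h
    · rw [h1] at h; cases h
    · rw [eval_wordN hk s m hm] at h
      have he : Even (multiplicity (k:ℤ) (m:ℤ)) := by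
        by_contra hne
        unfold stOf at h
        rw [if_neg hne] at h; cases h
      have hm' : (m:ℤ) ≠ 0 := by exact_mod_cast hm.ne'
      cases s
      · refine ⟨(m:ℤ), ⟨hm', he⟩, ?_⟩
        rw [word_eq hk _ hm']
        have : ¬ ((m:ℤ) < 0) := by omega
        simp [this]
      · refine ⟨-(m:ℤ), ⟨neg_ne_zero.2 hm', by rw [multiplicity_neg]; exact he⟩, ?_⟩
        rw [word_eq hk _ (neg_ne_zero.2 hm')]
        have : (-(m:ℤ) < 0) := by omega
        simp [hm]
    · rw [h1] at h; cases h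
  · rintro ⟨n, ⟨hn, he⟩, rfl⟩
    rw [word_eq hk n hn]
    show (auto k).eval _ = St.even
    rw [eval_wordN hk _ _ (Int.natAbs_pos.2 hn)]
    unfold stOf
    rw [if_pos]
    have : multiplicity (k:ℤ) ((n.natAbs : ℕ) : ℤ) = multiplicity (k:ℤ) n := by
      rcases Int.natAbs_eq n with h | h
      · rw [← h]
      · rw [h, multiplicity_neg]; simp
    rw [this]; exact he

/-! ### Instability and non-definability -/

theorem mult_pow_add {k : ℕ} (hk : 2 ≤ k) {a b : ℕ} (hab : a < b) :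
    multiplicity (k:ℤ) ((k:ℤ)^a + (k:ℤ)^b) = a := by
  have h1 : ¬ ((k:ℤ)^b ∣ (k:ℤ)^a) := by
    intro h
    have h2 : k ^ b ∣ k ^ a := by exact_mod_cast h
    have := (Nat.pow_dvd_pow_iff_le_right (by omega : 1 < k)).1 h2
    omega
  rw [mult_add_of_dvd h1 dvd_rfl]
  have hk0 : (k:ℤ)^a ≠ 0 := pow_ne_zero _ (by exact_mod_cast (by omega))
  refine mult_eq hk hk0 dvd_rfl ?_
  intro h
  have h2 : k ^ (a+1) ∣ k ^ a := by exact_mod_cast h
  have := (Nat.pow_dvd_pow_iff_le_right (by omega : 1 < k)).1 h2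
  omega

theorem unstable (k : ℕ) (hk : 2 ≤ k) : ¬ StableX (evenVal k) := by
  letI : LX.Structure ℤ := strX (evenVal k)
  intro h
  apply h
  let t : LX.Term (Fin 1 ⊕ Fin 1) :=
    Language.Term.func (L := LX) AddFun.add ![Language.Term.var (Sum.inl 0),
      Language.Term.var (Sum.inr 0)]
  let φ : LX.Formula (Fin 1 ⊕ Fin 1) :=
    Language.Relations.formula (L := LX) (n := 1) PredRel.mem ![t]
  refine ⟨1, 1, φ, fun N => ⟨fun i _ => (k:ℤ)^(2 * (i:ℕ) + 2), fun j _ => (k:ℤ)^(2 * (j:ℕ) + 1),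
    fun i j => ?_⟩⟩
  have h1 : φ.Realize (Sum.elim (fun _ => (k:ℤ)^(2 * (i:ℕ) + 2)) (fun _ => (k:ℤ)^(2 * (j:ℕ) + 1)))
      ↔ (k:ℤ)^(2 * (i:ℕ) + 2) + (k:ℤ)^(2 * (j:ℕ) + 1) ∈ evenVal k := by
    simp only [φ, Language.Formula.realize_rel]
    rfl
  rw [h1]
  have hpos : (k:ℤ)^(2 * (i:ℕ) + 2) + (k:ℤ)^(2 * (j:ℕ) + 1) ≠ 0 := by positivity
  show (_ ∧ _) ↔ _
  rw [and_iff_right hpos]
  rcases lt_or_ge (i:ℕ) (j:ℕ) with hij | hij
  · rw [mult_pow_add hk (by omega : 2 * (i:ℕ) + 2 < 2 * (j:ℕ) + 1)]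
    exact ⟨fun _ => hij, fun _ => ⟨(i:ℕ) + 1, by ring⟩⟩
  · rw [add_comm, mult_pow_add hk (by omega : 2 * (j:ℕ) + 1 < 2 * (i:ℕ) + 2)]
    constructor
    · intro he
      exact absurd he (by rw [Nat.even_add_one]; simp)
    · intro h; exact absurd h (by rw [Fin.lt_def]; omega)

theorem neg_val {k : ℕ} (hk : 2 ≤ k) (n : ℕ) (hn : 1 ≤ n) :
    (k:ℤ)^n - (k:ℤ)^(2*n) * (n.factorial : ℤ) < 0 := by
  have h1 : (1:ℤ) ≤ (n.factorial : ℤ) := by exact_mod_cast Nat.factorial_pos n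
  have h2 : (k:ℤ)^n < (k:ℤ)^(2*n) := by
    exact_mod_cast Nat.pow_lt_pow_right (by omega : 1 < k) (by omega)
  have h3 : (k:ℤ)^(2*n) ≤ (k:ℤ)^(2*n) * (n.factorial : ℤ) :=
    le_mul_of_one_le_right (by positivity) h1
  linarith

theorem not_def_pow (k : ℕ) (hk : 2 ≤ k) :
    ¬ DefX (evenVal k) {v : Fin 1 → ℤ | ∃ j : ℕ, v 0 = (k:ℤ)^j} := by
  intro h
  have h1 := (key hk h (fun _ j => (k:ℤ)^j)
    (fun _ j => (k:ℤ)^j - (k:ℤ)^(2*j) * (j.factorial : ℤ)) (fun _ => Or.inr ⟨rfl, rfl⟩)).1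
    (Eventually.of_forall fun j => ⟨j, rfl⟩)
  obtain ⟨n, ⟨j, hj⟩, hn⟩ := (h1.and (ev_ge 1)).exists
  have h2 := neg_val hk n hn
  have h3 : (0:ℤ) < (k:ℤ)^j := by positivity
  simp only at hj
  omega

theorem not_def_lt (k : ℕ) (hk : 2 ≤ k) :
    ¬ DefX (evenVal k) {v : Fin 2 → ℤ | v 0 < v 1} := by
  intro h
  have h1 := (key hk h ![fun _ => 0, fun j => (k:ℤ)^j]
    ![fun _ => 0, fun j => (k:ℤ)^j - (k:ℤ)^(2*j) * (j.factorial : ℤ)] (by
      intro i
      fin_cases i
      · exact Or.inl ⟨0, rfl, rfl⟩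
      · exact Or.inr ⟨rfl, rfl⟩)).1
    (Eventually.of_forall fun j => by
      show (0:ℤ) < (k:ℤ)^j
      positivity)
  obtain ⟨n, hj, hn⟩ := (h1.and (ev_ge 1)).exists
  have h2 := neg_val hk n hn
  have hj : (0:ℤ) < (k:ℤ)^n - (k:ℤ)^(2*n) * (n.factorial : ℤ) := hj
  omega

theorem not_def_V (k : ℕ) (hk : 2 ≤ k) :
    ¬ DefX (evenVal k) {v : Fin 2 → ℤ | v 1 = V k (v 0)} := by
  intro h
  have h1 := (key hk h ![fun j => (k:ℤ)^j, fun j => (k:ℤ)^j]
    ![fun j => (k:ℤ)^j - (k:ℤ)^(2*j) * (j.factorial : ℤ),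
      fun j => (k:ℤ)^j - (k:ℤ)^(2*j) * (j.factorial : ℤ)] (by
      intro i
      fin_cases i
      · exact Or.inr ⟨rfl, rfl⟩
      · exact Or.inr ⟨rfl, rfl⟩)).1
    (Eventually.of_forall fun j => by
      show (k:ℤ)^j = V k ((k:ℤ)^j)
      have hk0 : (k:ℤ)^j ≠ 0 := pow_ne_zero _ (by exact_mod_cast (by omega))
      rw [V, if_neg hk0, mult_eq hk hk0 dvd_rfl]
      intro h
      have h2 : k ^ (j+1) ∣ k ^ j := by exact_mod_cast h
      have := (Nat.pow_dvd_pow_iff_le_right (by omega : 1 < k)).1 h2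
      omega)
  obtain ⟨n, hj, hn⟩ := (h1.and (ev_ge 1)).exists
  have h2 := neg_val hk n hn
  have hj : (k:ℤ)^n - (k:ℤ)^(2*n) * (n.factorial : ℤ) =
    V k ((k:ℤ)^n - (k:ℤ)^(2*n) * (n.factorial : ℤ)) := hj
  have h3 : 0 < V k ((k:ℤ)^n - (k:ℤ)^(2*n) * (n.factorial : ℤ)) := by
    rw [V]
    split_ifs
    · exact one_pos
    · positivity
  omega

theorem def_pow (k : ℕ) :
    DefO (Set.range fun j : ℕ => (k:ℤ)^j) {v : Fin 1 → ℤ | ∃ j : ℕ, v 0 = (k:ℤ)^j} := by
  letI : LO.Structure ℤ := strO (Set.range fun j : ℕ => (k:ℤ)^j)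
  rw [DefO, Set.definable_iff_exists_formula_sum]
  let φ : LO.Formula ((Set.univ : Set ℤ) ⊕ Fin 1) :=
    Language.Relations.formula (L := LO) (n := 1) OrdPredRel.mem ![Language.Term.var (Sum.inr 0)]
  refine ⟨φ, ?_⟩
  ext v
  have h : φ.Realize (Sum.elim (fun a : (Set.univ : Set ℤ) => (a : ℤ)) v) ↔
      v 0 ∈ Set.range fun j : ℕ => (k:ℤ)^j := by
    simp only [φ, Language.Formula.realize_rel]
    rfl
  refine Iff.trans ?_ h.symm
  show (∃ j : ℕ, v 0 = (k:ℤ)^j) ↔ _
  simp only [Set.mem_range, eq_comm]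

end Pool.Agent.Lib.MPdf2971
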